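import Pool.Agent.H91.ToepSpec

set_option autoImplicit false

open H91.WShift Polynomial H91.ToepSpec in
theorem Pool.Agent.Results.MP_3abc29_an.Ellipse.result :
    ∃ P Q : ℂ[X], (∀ z : Circle, Q.eval (z : ℂ) ≠ 0) ∧
    Function.Injective (fun z : Circle => P.eval (z : ℂ) / Q.eval (z : ℂ)) ∧
    BadSymbol e (fun z => P.eval z / Q.eval z) :=
  main
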